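import Pool.Agent.H95.WComp

set_option autoImplicit false

namespace Pool.Agent.Results.MP_4b0b35_an.Quasinil

/-- H^2 is modelled as a Hilbert space with a Hilbert basis b (the monomials z^n); the element f
is the analytic function z ↦ ∑ ⟪b n, f⟫ z^n on the unit disc. -/
theorem result (H : Type) [NormedAddCommGroup H] [InnerProductSpace ℂ H] [CompleteSpace H]
    (b : HilbertBasis ℕ ℂ H) (ψ φ : ℂ → ℂ) (hψ : DifferentiableOn ℂ ψ (Metric.ball 0 1))
    (hφ : DifferentiableOn ℂ φ (Metric.ball 0 1))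
    (hm : Set.MapsTo φ (Metric.ball 0 1) (Metric.ball 0 1))
    (hfix : ∀ p ∈ Metric.ball (0 : ℂ) 1, φ p ≠ p)
    (T : H →L[ℂ] H)
    (hT : ∀ f : H, ∀ z ∈ Metric.ball (0 : ℂ) 1,
      ∑' n : ℕ, inner ℂ (b n) (T f) * z ^ n = ψ z * ∑' n : ℕ, inner ℂ (b n) f * φ z ^ n)
    (hc : IsCompactOperator T) : spectrum ℂ T = {0} := by
  let e := b.repr.toContinuousLinearEquiv
  rw [← AlgEquiv.spectrum_eq e.conjContinuousAlgEquiv T]
  refine Pool.Agent.H95.WComp.main ψ φ hψ hφ hm hfix _ (fun a z hz => ?_) ?_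
  · have := hT (b.repr.symm a) z hz
    simp only [← b.repr_apply_apply, LinearIsometryEquiv.apply_symm_apply] at this
    exact this
  · exact (hc.comp_clm e.symm.toContinuousLinearMap).clm_comp e.toContinuousLinearMap

end Pool.Agent.Results.MP_4b0b35_an.Quasinil
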